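import Pool.Agent.H42.RAT.Main
import Pool.Agent.H19.RATC.Ends2

/-!
# Both alternatives of Conway's RATS conjecture occur for at least `c N / (log N) ^ 0.999` integers up
# to `N`, and `1^(t+2) 222` is a term for at least `c N / log N` of them, for every `t ≤ c log N`
-/

set_option autoImplicit false

namespace Pool.Agent.Results.MP_a315fd_nt.BothAlternatives

/-- the number whose decimal digits are those of `n` in reverse order -/
def rev (n : ℕ) : ℕ := Nat.ofDigits 10 (Nat.digits 10 n).reverse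

/-- the digits of `k` in nondecreasing order, the most significant digit first (digit lists are
little-endian) -/
def sortDigits (k : ℕ) : ℕ :=
  Nat.ofDigits 10 ((Nat.digits 10 k).mergeSort (fun a b => decide (b ≤ a)))

/-- the RATS map -/
def T (n : ℕ) : ℕ := sortDigits (n + rev n)

/-- the number `1^(t+2) 2^3`: its digits are `t + 2` ones, then three twos (digit lists are
little-endian) -/
def word (t : ℕ) : ℕ := Nat.ofDigits 10 (List.replicate 3 2 ++ List.replicate (t + 2) 1)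

/-- some term is `1 2 3^m 4^4`, `m ≥ 2` -/
def Tributary (n : ℕ) : Prop := ∃ k m : ℕ, 2 ≤ m ∧
  T^[k] n = Nat.ofDigits 10 (List.replicate 4 4 ++ List.replicate m 3 ++ [2, 1])

/-- the sequence ends in a cycle -/
def Cyclic (n : ℕ) : Prop := ∃ k p : ℕ, 0 < p ∧ T^[k + p] n = T^[k] n

/-- For some `c > 0` and all large `N`: for every `t ≤ c log N` the number `1^(t+2) 222` is a term
of the sequence of at least `c N / log N` of the integers `1, …, N`; at least `c N / (log N)^0.999`
of them are tributary to Conway's divergent sequence, and at least `c N / (log N)^0.999` of them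
end in a cycle. -/
theorem result : ∃ c : ℝ, 0 < c ∧ ∃ N₀ : ℕ, ∀ N : ℕ, N₀ ≤ N →
    (∀ t : ℕ, (t : ℝ) ≤ c * Real.log N →
      c * N / Real.log N ≤
        (({n : ℕ | 1 ≤ n ∧ n ≤ N ∧ ∃ k : ℕ, T^[k] n = word t}).ncard : ℝ)) ∧
    c * N / Real.log N ^ (0.999 : ℝ) ≤ (({n : ℕ | 1 ≤ n ∧ n ≤ N ∧ Tributary n}).ncard : ℝ) ∧
    c * N / Real.log N ^ (0.999 : ℝ) ≤ (({n : ℕ | 1 ≤ n ∧ n ≤ N ∧ Cyclic n}).ncard : ℝ) := by
  obtain ⟨c, hc, N0, h⟩ := Pool.RATC.densityU
  obtain ⟨c2, hc2, N2, h2⟩ := Pool.RATC.many (R := fun t => Pool.RAT.Trib (Pool.RATC.Fw t))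
    (P := Tributary) (t0 := 14)
    (fun t t' j e ht' => Pool.RAT.trib_iter j (e ▸ ht')) Pool.RATC.start14 (by decide) (by norm_num)
    (by
      intro n k t ht hn
      have h1 : Pool.RAT.Trib n := Pool.RAT.trib_iter k (hn ▸ ht)
      unfold Pool.RAT.Trib at h1
      simp only [Pool.RAT.trib_iff_ray] at h1
      exact h1)
  obtain ⟨c3, hc3, N3, h3⟩ := Pool.RATC.many (R := fun t => ∃ k, Pool.RAT.rats^[k]
      (Pool.RATC.Fw t) = 111) (P := Cyclic) (t0 := 4)
    (fun t t' j e ht' => by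
      obtain ⟨k, hk⟩ := ht'
      exact ⟨k + j, by rw [Function.iterate_add_apply, e, hk]⟩)
    ⟨48, Pool.RATC.start4⟩ (by decide) (by norm_num)
    (by
      intro n k t ht hn
      obtain ⟨j, hj⟩ := ht
      have h4 : T^[j + k] n = 111 := by
        show Pool.RAT.rats^[j + k] n = 111
        rw [Function.iterate_add_apply, hn, hj]
      have h5 : T^[8] 111 = 111 := Pool.RATC.cyc111
      refine ⟨j + k, 8, by norm_num, ?_⟩
      rw [show j + k + 8 = 8 + (j + k) by ring, Function.iterate_add_apply, h4, h5])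
  refine ⟨min c (min c2 c3), lt_min hc (lt_min hc2 hc3), max (max N0 1) (max N2 N3),
    fun N hN => ?_⟩
  have g0 : N0 ≤ N := le_trans (le_trans (le_max_left _ _) (le_max_left _ _)) hN
  have g1 : 1 ≤ N := le_trans (le_trans (le_max_right _ _) (le_max_left _ _)) hN
  have g2 : N2 ≤ N := le_trans (le_trans (le_max_left _ _) (le_max_right _ _)) hN
  have g3 : N3 ≤ N := le_trans (le_trans (le_max_right _ _) (le_max_right _ _)) hN
  have hl : 0 ≤ Real.log (N : ℝ) := Real.log_natCast_nonneg N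
  have e999 : (0.999 : ℝ) = 999 / 1000 := by norm_num
  have m1 : min c (min c2 c3) ≤ c := min_le_left _ _
  have m2 : min c (min c2 c3) ≤ c2 := (min_le_right _ _).trans (min_le_left _ _)
  have m3 : min c (min c2 c3) ≤ c3 := (min_le_right _ _).trans (min_le_right _ _)
  obtain ⟨K, hK⟩ := h N g0
  refine ⟨fun t ht => ?_, ?_, ?_⟩
  · have h4 := hK t (ht.trans (mul_le_mul_of_nonneg_right m1 hl))
    have hfin : ({n : ℕ | 1 ≤ n ∧ n ≤ N ∧ ∃ k : ℕ, T^[k] n = word t}).Finite :=
      (Set.finite_Iic N).subset (fun _ h => h.2.1)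
    have h5 : ((Pool.RATC.US (K (t % 2)) t N).ncard : ℝ) ≤
        (({n : ℕ | 1 ≤ n ∧ n ≤ N ∧ ∃ k : ℕ, T^[k] n = word t}).ncard : ℝ) := by
      exact_mod_cast Set.ncard_le_ncard
        (fun n hn => ⟨hn.1, hn.2.1, _, hn.2.2⟩ : Pool.RATC.US (K (t % 2)) t N ⊆
          {n : ℕ | 1 ≤ n ∧ n ≤ N ∧ ∃ k : ℕ, T^[k] n = word t}) hfin
    refine le_trans ?_ (h4.trans h5)
    rw [mul_div_assoc, mul_div_assoc]
    exact mul_le_mul_of_nonneg_right m1 (div_nonneg (Nat.cast_nonneg N) hl)
  · rw [e999]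
    refine le_trans ?_ (h2 N g2)
    rw [mul_div_assoc, mul_div_assoc]
    exact mul_le_mul_of_nonneg_right m2 (div_nonneg (Nat.cast_nonneg N) (Real.rpow_nonneg hl _))
  · rw [e999]
    refine le_trans ?_ (h3 N g3)
    rw [mul_div_assoc, mul_div_assoc]
    exact mul_le_mul_of_nonneg_right m3 (div_nonneg (Nat.cast_nonneg N) (Real.rpow_nonneg hl _))

end Pool.Agent.Results.MP_a315fd_nt.BothAlternatives
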