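import Pool.Agent.H42.RAT2.Pack2
import Pool.Agent.H20.RCC.Win

/-!
# Almost every RATS sequence has, after at most `2 log log N` steps, a long term with almost all
digits `1`
-/

set_option autoImplicit false

namespace Pool.Agent.Results.MP_a315fd_nt.NearRepunitTerms

/-- the number whose decimal digits are those of `n` in reverse order -/
def rev (n : ℕ) : ℕ := Nat.ofDigits 10 (Nat.digits 10 n).reverse

/-- the digits of `k` in nondecreasing order, the most significant digit first (digit lists are
little-endian) -/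
def sortDigits (k : ℕ) : ℕ :=
  Nat.ofDigits 10 ((Nat.digits 10 k).mergeSort (fun a b => decide (b ≤ a)))

/-- the RATS map -/
def T (n : ℕ) : ℕ := sortDigits (n + rev n)

/-- the number of decimal digits of `m` -/
def numDigits (m : ℕ) : ℕ := (Nat.digits 10 m).length

/-- the number of the decimal digits of `m` other than `1` -/
def nonOnes (m : ℕ) : ℕ := (Nat.digits 10 m).countP (fun d => decide (d ≠ 1))

/-- For every `δ > 0` there are `V`, `N₀` and `c > 0` such that for every `N ≥ N₀` all but at most
`δ N` of the integers `1 ≤ n ≤ N` have a term `T^k(n)`, `k ≤ 2 log log N`, with at least `c log N`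
digits, at most `V` of which are different from `1`. -/
theorem result : ∀ δ : ℝ, 0 < δ → ∃ (V N₀ : ℕ) (c : ℝ), 0 < c ∧ ∀ N : ℕ, N₀ ≤ N →
    (({n : ℕ | 1 ≤ n ∧ n ≤ N ∧ ¬ ∃ k : ℕ, (k : ℝ) ≤ 2 * Real.log (Real.log N) ∧
      nonOnes (T^[k] n) ≤ V ∧ c * Real.log N ≤ numDigits (T^[k] n)}).ncard : ℝ) ≤ δ * N :=
  fun _ hδ => Pool.RAT.almost_repunit2 (Pool.RAT.det_of Pool.RCC.sysFinal) hδ

end Pool.Agent.Results.MP_a315fd_nt.NearRepunitTerms
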