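import Pool.Agent.H42.RAT.Main

/-!
# RATS sequences in which every second term has its digits `≤ 4`, or has its digits `≥ 5`
-/

set_option autoImplicit false

namespace Pool.Agent.Results.MP_a315fd_nt.SecondTermDigits

/-- the number whose decimal digits are those of `n` in reverse order -/
def rev (n : ℕ) : ℕ := Nat.ofDigits 10 (Nat.digits 10 n).reverse

/-- the digits of `k` in nondecreasing order, the most significant digit first (digit lists are
little-endian) -/
def sortDigits (k : ℕ) : ℕ :=
  Nat.ofDigits 10 ((Nat.digits 10 k).mergeSort (fun a b => decide (b ≤ a)))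

/-- the RATS map -/
def T (n : ℕ) : ℕ := sortDigits (n + rev n)

/-- some term is `1 2 3^m 4^4`, `m ≥ 2` -/
def Tributary (n : ℕ) : Prop := ∃ k m : ℕ, 2 ≤ m ∧
  T^[k] n = Nat.ofDigits 10 (List.replicate 4 4 ++ List.replicate m 3 ++ [2, 1])

/-- From some term on every second term has all its digits `≤ 4` if and only if `n` is tributary;
from some term on every second term has all its digits `≥ 5` if and only if `n` is tributary or its
sequence reaches `78`. -/
theorem result (n : ℕ) (hn : 0 < n) :
    ((∃ K : ℕ, ∀ j : ℕ, ∀ d ∈ Nat.digits 10 (T^[K + 2 * j] n), d ≤ 4) ↔ Tributary n) ∧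
    ((∃ K : ℕ, ∀ j : ℕ, ∀ d ∈ Nat.digits 10 (T^[K + 2 * j] n), 5 ≤ d) ↔
      Tributary n ∨ ∃ k : ℕ, T^[k] n = 78) := by
  have h := Pool.RAT.main n hn
  have hT : Pool.RAT.Trib n ↔ Tributary n := by
    unfold Pool.RAT.Trib
    simp only [Pool.RAT.trib_iff_ray]
    exact Iff.rfl
  rw [hT] at h
  exact ⟨h.1.symm, h.2.1.symm⟩

end Pool.Agent.Results.MP_a315fd_nt.SecondTermDigits
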