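import Pool.Agent.H42.RAT2.Alm2

/-!
# All but `C N / log N` of the integers up to `N` have a third RATS term of the form `1^x 2^y`
-/

set_option autoImplicit false

namespace Pool.Agent.Results.MP_a315fd_nt.ThirdTerms

/-- the number whose decimal digits are those of `n` in reverse order -/
def rev (n : ℕ) : ℕ := Nat.ofDigits 10 (Nat.digits 10 n).reverse

/-- the digits of `k` in nondecreasing order, the most significant digit first (digit lists are
little-endian) -/
def sortDigits (k : ℕ) : ℕ :=
  Nat.ofDigits 10 ((Nat.digits 10 k).mergeSort (fun a b => decide (b ≤ a)))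

/-- the RATS map -/
def T (n : ℕ) : ℕ := sortDigits (n + rev n)

/-- For some `C` and all `N ≥ 2`, at most `C N / log N` of the integers `1, …, N` have a term
`T (T n)` that is not of the form `1 … 1 2 … 2` (`x` digits `1`, then `y` digits `2`). -/
theorem result : ∃ C : ℝ, ∀ N : ℕ, 2 ≤ N →
    (({n : ℕ | 1 ≤ n ∧ n ≤ N ∧ ¬ ∃ x y : ℕ, T (T n) =
      Nat.ofDigits 10 (List.replicate y 2 ++ List.replicate x 1)}).ncard : ℝ) ≤
      C * N / Real.log N :=
  Pool.RAT.almost_all'

end Pool.Agent.Results.MP_a315fd_nt.ThirdTerms
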